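import Pool.Agent.H.MP_e12961_lc.A

set_option autoImplicit false

namespace Pool.Agent.H.MP_ad67df_lc

open Pool.Agent.Lib.helper21.Fn Pool.Agent.Lib.helper21.CPred Finset MeasureTheory
open scoped ENNReal Classical

def cyl (n : ℕ) (B : Om) : Set Om := {Z | ∀ i < n, Z i = B i}

theorem cyl_eq {n : ℕ} {B B' : Om} (h : ∀ i < n, B i = B' i) : cyl n B = cyl n B' :=
  Set.ext fun _ => forall₂_congr fun i hi => by rw [h i hi]

def d (i : ℕ) : ℕ := 2 ^ (i + 2)

theorem lt_d (i : ℕ) : i + 2 < d i := Nat.lt_two_pow_self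

theorem d_mono {i j : ℕ} (h : i ≤ j) : d i ≤ d j := Nat.pow_le_pow_right (by norm_num) (by omega)

def MM (s : ℕ) : ℕ := s.unpair.1.unpair.1

def II (s : ℕ) : ℕ := s.unpair.1.unpair.2

def In (M t : ℕ) (B : Om) : Prop := ∀ u < t, att M B u 0 = 0

def Q (a : ℕ → Om → Prop) (M i t : ℕ) (B : Om) : Prop :=
  In M t B ∧ ∀ s < t, i ≤ s → a s B → M ≤ MM s

def Alive (a : ℕ → Om → Prop) (M i t : ℕ) (B : Om) : Prop :=
  2⁻¹ ^ d (i + 1) * 2⁻¹ ^ d (i + 2) ≤ mu ({Z | Q a M i t Z} ∩ cyl (d (i + 2)) B)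

def Left (a : ℕ → Om → Prop) (M i t : ℕ) (B : Om) : Prop :=
  Alive a M i t B ∧ ∀ z < cd B (d (i + 2)), (∀ j < d (i + 1), tb z j = B j) → ¬ Alive a M i t (tb z)

def Blk (a : ℕ → Om → Prop) (M t : ℕ) (B : Om) : Prop :=
  ∃ s < t, a s B ∧ MM s < M ∧ II s % 2 = 0 ∧ In (MM s) t B ∧ ∀ s' < t, s < s' → ¬ a s' B

def Step (a : ℕ → Om → Prop) (t : ℕ) (B : Om) : Prop :=
  MM t ≤ II t ∧ d (II t + 2) ≤ t ∧ Q a (MM t) (II t) t B ∧ Left a (MM t) (II t) t B ∧
    ¬ Blk a (MM t) t B ∧ ∀ s < t, a s B → MM s ≤ MM t → II s < II t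

noncomputable def Hs : ℕ → Om → ℕ
  | 0 => fun _ => 0
  | t + 1 => fun B => 2 ^ t * (decide (Step (fun s Z => tb (Hs t Z) s = true) t B)).toNat + Hs t B

def act (t : ℕ) (B : Om) : Prop := Step (fun s Z => tb (Hs t Z) s = true) t B

theorem H_eq (B : Om) : ∀ t, Hs t B = cd (fun s => decide (act s B)) t
  | 0 => rfl
  | t + 1 => by rw [cd, ← H_eq B t]; rfl

theorem step_congr {a a' : ℕ → Om → Prop} {t : ℕ} (h : ∀ s < t, ∀ Z, a s Z ↔ a' s Z) (B : Om) :
    Step a t B ↔ Step a' t B := by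
  have h1 : ∀ M i, Q a M i t = Q a' M i t := fun M i => funext fun Z => propext
    (and_congr_right fun _ => forall₂_congr fun s hs => by rw [h s hs])
  have h2 : ∀ M, Blk a M t B ↔ Blk a' M t B := fun M => exists_congr fun s =>
    and_congr_right fun hs => by
      rw [h s hs]
      exact and_congr_right fun _ => and_congr_right fun _ => and_congr_right fun _ =>
        and_congr_right fun _ => forall₂_congr fun s hs => by rw [h s hs]
  simp only [Step, Left, Alive, h1, h2]
  exact and_congr_right fun _ => and_congr_right fun _ => and_congr_right fun _ =>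
    and_congr_right fun _ => and_congr_right fun _ => forall₂_congr fun s hs => by rw [h s hs]

theorem act_iff {t : ℕ} {B : Om} : act t B ↔ Step act t B :=
  step_congr (fun s hs Z => by rw [H_eq, tb_cd _ _ _ hs, decide_eq_true_iff]) B

theorem loc_mono {s t : ℕ} {S : Om → Prop} (h : Loc s S) (hst : s ≤ t) : Loc t S :=
  fun Z Z' e => h Z Z' fun i hi => e i (hi.trans_le hst)

theorem loc_symm {s : ℕ} {S : Om → Prop} (h : Loc s S) {Z Z' : Om} (e : ∀ i < s, Z i = Z' i) :
    S Z' → S Z := h Z' Z fun i hi => (e i hi).symm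

theorem In_loc (M t : ℕ) : Loc t (In M t) := fun _ _ e h u hu => att_congr M e hu.le 0 ▸ h u hu

theorem Q_loc {a : ℕ → Om → Prop} {t : ℕ} (h : ∀ s < t, Loc t (a s)) (M i : ℕ) :
    Loc t (Q a M i t) := fun _ _ e h1 =>
  ⟨In_loc M t _ _ e h1.1, fun s hs hi h2 => h1.2 s hs hi (loc_symm (h s hs) e h2)⟩

theorem alive_loc (a : ℕ → Om → Prop) (M i t : ℕ) : Loc (d (i + 2)) (Alive a M i t) :=
  fun _ _ e h => by unfold Alive at h ⊢; rwa [← cyl_eq e]

theorem left_loc (a : ℕ → Om → Prop) (M i t : ℕ) : Loc (d (i + 2)) (Left a M i t) :=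
  fun _ _ e h => ⟨alive_loc a M i t _ _ e h.1, fun z hz h1 => h.2 z (cd_congr e ▸ hz) fun j hj =>
    (h1 j hj).trans (e j (hj.trans_le (d_mono (by omega)))).symm⟩

theorem blk_loc {a : ℕ → Om → Prop} {t : ℕ} (h : ∀ s < t, Loc t (a s)) (M : ℕ) :
    Loc t (Blk a M t) := fun _ _ e ⟨s, hs, h1, h2, h3, h4, h5⟩ =>
  ⟨s, hs, h s hs _ _ e h1, h2, h3, In_loc _ t _ _ e h4,
    fun s' hs' h6 h7 => h5 s' hs' h6 (loc_symm (h s' hs') e h7)⟩

theorem step_loc {a : ℕ → Om → Prop} {t : ℕ} (h : ∀ s < t, Loc t (a s)) : Loc t (Step a t) :=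
  fun _ _ e ⟨h1, h2, h3, h4, h5, h6⟩ => ⟨h1, h2, Q_loc h _ _ _ _ e h3,
    loc_mono (left_loc a _ _ t) h2 _ _ e h4, fun h7 => h5 (loc_symm (blk_loc h _) e h7),
    fun s hs h7 => h6 s hs (loc_symm (h s hs) e h7)⟩

theorem act_loc (t : ℕ) : Loc t (act t) := by
  induction t using Nat.strong_induction_on with
  | _ t ih => exact fun Z Z' e h => act_iff.2 (step_loc (fun s hs => loc_mono (ih s hs) hs.le)
      Z Z' e (act_iff.1 h))

theorem mu_loc_ge {s : ℕ} {S : Om → Prop} (h : Loc s S) (k : ℕ) :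
    2⁻¹ ^ k ≤ mu {Z | S Z} ↔ 2 ^ s ≤ 2 ^ k * #{m ∈ range (2 ^ s) | S (tb m)} := by
  rw [mu_loc h, ← ENNReal.inv_pow, ← ENNReal.inv_pow, ← div_eq_mul_inv,
    ENNReal.le_div_iff_mul_le (by simp) (by simp), mul_comm, ← div_eq_mul_inv,
    ENNReal.div_le_iff (by simp) (by simp), mul_comm]
  norm_cast

variable {α : Type} [Primcodable α]

theorem MM_prim : Primrec MM :=
  Primrec.fst.comp (Primrec.unpair.comp (Primrec.fst.comp Primrec.unpair))

theorem II_prim : Primrec II :=
  Primrec.snd.comp (Primrec.unpair.comp (Primrec.fst.comp Primrec.unpair))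

theorem d_prim (c : ℕ) : Primrec fun i => d (i + c) :=
  pow2.comp (Primrec.nat_add.comp (Primrec.nat_add.comp Primrec.id (Primrec.const c))
    (Primrec.const 2))

theorem cle {f g : α → ℕ} (hf : Computable f) (hg : Computable g) :
    ComputablePred fun a => f a ≤ g a := (clt hg hf).not.of_eq fun _ => not_lt

theorem cimp {p q : α → Prop} (hp : ComputablePred p) (hq : ComputablePred q) :
    ComputablePred fun a => p a → q a := (cor hp.not hq).of_eq fun _ => imp_iff_not_or.symm

theorem tb_comp {m : α → ℕ} (hm : Computable m) : Computable₂ fun a => tb (m a) :=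
  (tb_prim.to_comp.comp (hm.comp Computable.fst) Computable.snd).to₂

open Computable in
theorem In_comp {M t m : α → ℕ} (hM : Computable M) (ht : Computable t) (hm : Computable m) :
    ComputablePred fun a => In (M a) (t a) (tb (m a)) := by
  have h : ComputablePred fun z : α × ℕ => att (M z.1) (tb (m z.1)) z.2 0 = 0 :=
    ceq (att_comp (hM.comp fst) (tb_comp (hm.comp fst)) snd (const 0)) (const 0)
  exact call h ht

open Computable in
theorem step_comp {a : α → ℕ → Om → Prop} {t : α → ℕ} (ht : Computable t)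
    (hl : ∀ x s, Loc (t x) (a x s))
    (hc : ComputablePred fun z : (α × ℕ) × ℕ => a z.1.1 z.2 (tb z.1.2)) :
    ComputablePred fun z : α × ℕ => Step (a z.1) (t z.1) (tb z.2) := by
  have hM : Computable fun x => MM (t x) := MM_prim.to_comp.comp ht
  have hI : Computable fun x => II (t x) := II_prim.to_comp.comp ht
  have hd : ∀ c, Computable fun x => d (II (t x) + c) := fun c => (d_prim c).to_comp.comp hI
  have hM' : Computable fun z : (α × ℕ) × ℕ => MM z.2 := MM_prim.to_comp.comp snd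
  have hI' : Computable fun z : (α × ℕ) × ℕ => II z.2 := II_prim.to_comp.comp snd
  have hQ : ComputablePred fun z : α × ℕ =>
      Q (a z.1) (MM (t z.1)) (II (t z.1)) (t z.1) (tb z.2) :=
    cand (In_comp (hM.comp fst) (ht.comp fst) snd) (call (cimp (cle (hI.comp (fst.comp fst)) snd)
      (cimp hc (cle (hM.comp (fst.comp fst)) hM'))) (ht.comp fst))
  have hE : ∀ c, ComputablePred fun z : (α × ℕ) × ℕ =>
      ∀ j < d (II (t z.1.1) + c), tb z.2 j = tb z.1.2 j := fun c => by
    have h : ComputablePred fun z : ((α × ℕ) × ℕ) × ℕ => tb z.1.2 z.2 = tb z.1.1.2 z.2 :=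
      ceq (tb_prim.to_comp.comp (snd.comp fst) snd)
        (tb_prim.to_comp.comp (snd.comp (fst.comp fst)) snd)
    exact call h ((hd c).comp (fst.comp fst))
  have hn : Computable fun z : α × ℕ => 2 ^ (t z.1 + d (II (t z.1) + 2)) :=
    pow2.to_comp.comp (Primrec.nat_add.to_comp.comp (ht.comp fst) ((hd 2).comp fst))
  have hA : ComputablePred fun z : α × ℕ =>
      Alive (a z.1) (MM (t z.1)) (II (t z.1)) (t z.1) (tb z.2) := by
    have h1 := ccount (p := fun (z : α × ℕ) m => Q (a z.1) (MM (t z.1)) (II (t z.1)) (t z.1) (tb m)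
      ∧ ∀ j < d (II (t z.1) + 2), tb m j = tb z.2 j)
      (cand (ccomp hQ ((fst.comp fst).pair snd)) (hE 2)) hn
    refine (cle hn (Primrec.nat_mul.to_comp.comp (pow2.to_comp.comp (Primrec.nat_add.to_comp.comp
      ((hd 1).comp fst) ((hd 2).comp fst))) h1)).of_eq fun z => ?_
    rw [Alive, ← pow_add]
    refine Iff.symm ((mu_loc_ge (S := fun Z => Q (a z.1) (MM (t z.1)) (II (t z.1)) (t z.1) Z ∧
      Z ∈ cyl (d (II (t z.1) + 2)) (tb z.2)) (s := t z.1 + d (II (t z.1) + 2))
      (fun Z Z' e h => ⟨loc_mono (Q_loc (fun s _ => hl _ s) _ _) (by omega) Z Z' e h.1,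
        fun j hj => (e j (by omega)).symm.trans (h.2 j hj)⟩) _).trans ?_)
    congr!
  have hL : ComputablePred fun z : α × ℕ =>
      Left (a z.1) (MM (t z.1)) (II (t z.1)) (t z.1) (tb z.2) :=
    cand hA (call (cimp (hE 1) (ccomp hA ((fst.comp fst).pair snd)).not)
      (cd_comp (tb_comp snd) ((hd 2).comp fst)))
  have hB : ComputablePred fun z : α × ℕ => Blk (a z.1) (MM (t z.1)) (t z.1) (tb z.2) :=
    cex (cand hc (cand (clt hM' (hM.comp (fst.comp fst))) (cand (ceq (Primrec.nat_mod.to_comp.comp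
      hI' (const 2)) (const 0)) (cand (In_comp hM' (ht.comp (fst.comp fst)) (snd.comp fst))
      (call (cimp (clt (snd.comp fst) snd) (ccomp hc ((fst.comp fst).pair snd)).not)
        (ht.comp (fst.comp fst))))))) (ht.comp fst)
  exact cand (cle (hM.comp fst) (hI.comp fst)) (cand (cle ((hd 2).comp fst) (ht.comp fst))
    (cand hQ (cand hL (cand hB.not (call (cimp hc (cimp (cle hM' (hM.comp (fst.comp fst)))
      (clt hI' (hI.comp (fst.comp fst))))) (ht.comp fst))))))

open Computable in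
theorem cmap {f : α → ℕ → ℕ} (hf : Computable₂ f) {n : α → ℕ} (hn : Computable n) :
    Computable fun a => (List.range (n a)).map (f a) := by
  refine (nat_rec hn (const []) (h := fun a z => z.2 ++ [f a z.1])
    (list_concat.comp (snd.comp snd) (hf.comp fst (fst.comp snd))).to₂).of_eq fun a => ?_
  induction n a with
  | zero => rfl
  | succ n ih => simp only [List.range_succ, List.map_append, ← ih]; rfl

noncomputable def tab (t : ℕ) : List ℕ := (List.range (2 ^ t)).map fun m => Hs t (tb m)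

def rd (x : ℕ × List ℕ) (s : ℕ) (Z : Om) : Prop := tb (x.2.getD (cd Z x.1) 0) s = true

theorem tab_get (t : ℕ) (Z : Om) : (tab t).getD (cd Z t) 0 = Hs t Z := by
  simp only [tab, List.getD_eq_getElem?_getD, List.getElem?_map, List.getElem?_range (cd_lt Z t),
    Option.map_some, Option.getD_some, H_eq]
  exact cd_congr fun s hs => decide_eq_decide.2 ((loc_mono (act_loc s) hs.le).iff Z)

theorem rd_tab (t : ℕ) : rd (t, tab t) = fun s Z => tb (Hs t Z) s = true := by
  funext s Z
  simp only [rd, tab_get]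

open Computable in
theorem get_comp : Computable fun z : (ℕ × List ℕ) × ℕ => z.1.2.getD (cd (tb z.2) z.1.1) 0 :=
  (Primrec.list_getD 0).to_comp.comp (snd.comp fst) (cd_comp (tb_comp snd) (fst.comp fst))

open Computable in
theorem rd_comp : ComputablePred fun z : (ℕ × List ℕ) × ℕ => Step (rd z.1) z.1.1 (tb z.2) := by
  have h : ComputablePred fun z : ((ℕ × List ℕ) × ℕ) × ℕ => rd z.1.1 z.2 (tb z.1.2) :=
    ceq (tb_prim.to_comp.comp (get_comp.comp fst) snd) (const true)
  exact step_comp fst (fun x s Z Z' e h => by simpa only [rd, ← cd_congr e] using h) h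

noncomputable def nx (x : ℕ × List ℕ) (m : ℕ) : ℕ :=
  2 ^ x.1 * (decide (Step (rd x) x.1 (tb m))).toNat + x.2.getD (cd (tb m) x.1) 0

open Computable in
theorem nx_comp : Computable₂ nx :=
  Primrec.nat_add.to_comp.comp (Primrec.nat_mul.to_comp.comp (pow2.to_comp.comp (fst.comp fst))
    (toNat_prim.to_comp.comp rd_comp.decide)) get_comp

open Computable in
theorem tab_comp : Computable tab := by
  have h : Computable fun x : ℕ × List ℕ => (List.range (2 ^ (x.1 + 1))).map (nx x) :=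
    cmap nx_comp (pow2.to_comp.comp (succ.comp fst))
  refine (nat_rec Computable.id (const [0])
    (h := fun (_ : ℕ) (x : ℕ × List ℕ) => (List.range (2 ^ (x.1 + 1))).map (nx x))
    (h.comp snd).to₂).of_eq fun t => ?_
  induction t with
  | zero => rfl
  | succ t ih =>
    simp only [id] at ih ⊢
    rw [ih]
    refine List.map_congr_left fun m _ => ?_
    simp only [nx, tab_get, rd_tab, Hs]

open Computable in
theorem act_comp : ComputablePred fun z : ℕ × ℕ => act z.1 (tb z.2) :=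
  (ccomp rd_comp ((fst.pair (tab_comp.comp fst)).pair snd)).of_eq fun z => by
    simp only [rd_tab, act]

end Pool.Agent.H.MP_ad67df_lc
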