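import Pool.Agent.H.MP_ad67df_lc.A

set_option autoImplicit false

namespace Pool.Agent.H.MP_ad67df_lc

open Pool.Agent.Lib.helper21.Fn Pool.Agent.Lib.helper21.CPred Finset MeasureTheory Filter
open scoped ENNReal Classical

theorem mu_cyl' (n : ℕ) (B : Om) : mu (cyl n B) = 2⁻¹ ^ n := by
  simpa [cyl] using mu_cyl (range n) B

theorem cyl_loc (n : ℕ) (B : Om) : Loc n (· ∈ cyl n B) :=
  fun _ _ e h i hi => (e i hi).symm.trans (h i hi)

theorem avg {W : Set Om} {η : ℝ≥0∞} {n : ℕ} {B0 : Om} : ∀ k, (∀ B ∈ cyl n B0,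
    mu (W ∩ cyl (n + k) B) ≤ η * 2⁻¹ ^ (n + k)) → mu (W ∩ cyl n B0) ≤ η * 2⁻¹ ^ n
  | 0, h => h B0 fun _ _ => rfl
  | k + 1, h => by
    refine avg k fun B hB => ?_
    have h1 : ∀ b, Function.update B (n + k) b ∈ cyl n B0 := fun b i hi => by
      rw [Function.update_of_ne (by omega)]; exact hB i hi
    have h2 : W ∩ cyl (n + k) B ⊆ W ∩ cyl (n + (k + 1)) (Function.update B (n + k) true) ∪
        W ∩ cyl (n + (k + 1)) (Function.update B (n + k) false) := by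
      rintro Z ⟨hW, hZ⟩
      have : Z ∈ cyl (n + (k + 1)) (Function.update B (n + k) (Z (n + k))) := fun i hi => by
        by_cases h3 : i = n + k
        · simp [h3]
        · rw [Function.update_of_ne h3]; exact hZ i (by omega)
      cases h3 : Z (n + k) <;> simp only [h3] at this
      · exact Or.inr ⟨hW, this⟩
      · exact Or.inl ⟨hW, this⟩
    refine (measure_mono h2).trans ((measure_union_le _ _).trans ((add_le_add (h _ (h1 _))
      (h _ (h1 _))).trans_eq ?_))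
    rw [← mul_add, ← add_assoc, pow_succ, ← mul_add, ENNReal.inv_two_add_inv_two, mul_one]

theorem avg' {W : Set Om} {η : ℝ≥0∞} {n m : ℕ} {B0 : Om} (hn : n ≤ m) (h : ∀ B ∈ cyl n B0,
    mu (W ∩ cyl m B) ≤ η * 2⁻¹ ^ m) : mu (W ∩ cyl n B0) ≤ η * 2⁻¹ ^ n := by
  obtain ⟨k, rfl⟩ := Nat.exists_eq_add_of_le hn
  exact avg k h

theorem half_anti {m n : ℕ} (h : m ≤ n) : (2⁻¹ : ℝ≥0∞) ^ n ≤ 2⁻¹ ^ m :=
  pow_le_pow_right_of_le_one' (by simp) h

theorem In.anti {M s t : ℕ} {B : Om} (h : In M t B) (hst : s ≤ t) : In M s B :=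
  fun u hu => h u (hu.trans_le hst)

theorem Q.anti {M i s t : ℕ} {B : Om} (h : Q act M i t B) (hst : s ≤ t) : Q act M i s B :=
  ⟨h.1.anti hst, fun u hu => h.2 u (hu.trans_le hst)⟩

theorem Alive.anti {M i s t : ℕ} {B : Om} (h : Alive act M i t B) (hst : s ≤ t) :
    Alive act M i s B :=
  h.trans (measure_mono fun _ hZ => ⟨Q.anti hZ.1 hst, hZ.2⟩)

def C (M i : ℕ) : Set Om := {B | ∀ t, Q act M i t B}

theorem actQ (M i t : ℕ) : Loc t (Q act M i t) := Q_loc (fun s hs => loc_mono (act_loc s) hs.le) M i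

theorem alive_iff {M i : ℕ} {B : Om} : (∀ t, Alive act M i t B) ↔
    2⁻¹ ^ d (i + 1) * 2⁻¹ ^ d (i + 2) ≤ mu (C M i ∩ cyl (d (i + 2)) B) := by
  have : C M i ∩ cyl (d (i + 2)) B = ⋂ t, {Z | Q act M i t Z} ∩ cyl (d (i + 2)) B := by
    ext; simp [C, forall_and]
  rw [this, Antitone.measure_iInter (s := fun t => {Z | Q act M i t Z} ∩ cyl (d (i + 2)) B)
    (fun s t h Z hZ => ⟨Q.anti hZ.1 h, hZ.2⟩) (fun t =>
    ((actQ M i t).closed.inter (cyl_loc _ B).closed).measurableSet.nullMeasurableSet)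
    ⟨0, measure_ne_top _ _⟩, le_iInf_iff]
  rfl

def Ls (M i : ℕ) : Set Om := {B | B ∈ C M i ∧ M ≤ i ∧ ∃ t, Left act M i t B}

theorem mu_Ls (M i n : ℕ) (hn : n ≤ d (i + 1)) (B0 : Om) :
    mu (Ls M i ∩ cyl n B0) ≤ 2 * 2⁻¹ ^ d (i + 1) * 2⁻¹ ^ n := by
  let D := {B | (∀ t, Alive act M i t B) ∧ ∃ t, Left act M i t B}
  have h1 : mu ({B | B ∈ C M i ∧ ¬ ∀ t, Alive act M i t B} ∩ cyl n B0) ≤
      2⁻¹ ^ d (i + 1) * 2⁻¹ ^ n := by
    refine avg' (hn.trans (d_mono (Nat.le_succ _))) fun B _ => ?_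
    by_cases h : ∀ t, Alive act M i t B
    · refine le_of_eq_of_le (measure_mono_null (t := ∅) (fun Z hZ => hZ.1.2 fun t =>
        loc_symm (alive_loc _ _ _ _) hZ.2 (h t)) measure_empty) bot_le
    · refine le_trans (measure_mono fun Z hZ => ?_) (not_le.1 (mt alive_iff.2 h)).le
      exact ⟨hZ.1.1, hZ.2⟩
  have h2 : mu (D ∩ cyl n B0) ≤ 2⁻¹ ^ d (i + 1) * 2⁻¹ ^ n := by
    refine avg' hn fun B _ => ?_
    rcases (D ∩ cyl (d (i + 1)) B).eq_empty_or_nonempty with h | ⟨Z, hZ⟩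
    · simp [h]
    have h3 : ∀ Z ∈ D ∩ cyl (d (i + 1)) B, ∀ Z' ∈ D ∩ cyl (d (i + 1)) B,
        cd Z (d (i + 2)) ≤ cd Z' (d (i + 2)) := by
      rintro Z ⟨⟨-, t, h4⟩, h5⟩ Z' ⟨⟨h6, -⟩, h7⟩
      by_contra h8
      exact h4.2 _ (not_le.1 h8) (fun j hj => (tb_cd _ _ _ (hj.trans_le (d_mono (by omega)))).trans
        ((h7 j hj).trans (h5 j hj).symm)) (((alive_loc _ _ _ _).iff _).2 (h6 t))
    refine (measure_mono (t := cyl (d (i + 2)) Z) fun Z' hZ' j hj => ?_).trans_eq ?_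
    · rw [← tb_cd Z' _ _ hj, le_antisymm (h3 _ hZ' _ hZ) (h3 _ hZ _ hZ'), tb_cd Z _ _ hj]
    · rw [mu_cyl', ← pow_add, ← two_mul, d, d, pow_succ' 2 (i + 1 + 2)]
  refine (measure_mono fun B hB => ?_).trans ((measure_union_le _ _).trans
    ((add_le_add h1 h2).trans_eq (by rw [mul_assoc, two_mul])))
  by_cases h : ∀ t, Alive act M i t B
  · exact Or.inr ⟨⟨h, hB.1.2.2⟩, hB.2⟩
  · exact Or.inl ⟨⟨hB.1.1, h⟩, hB.2⟩

def L (i : ℕ) : Set Om := ⋃ M, ⋃ k, Ls M (i + k)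

theorem mu_L (i n : ℕ) (hn : n ≤ d (i + 1)) (B0 : Om) :
    mu (L i ∩ cyl n B0) ≤ 2⁻¹ ^ (d i + 1) * 2⁻¹ ^ n := by
  have h1 : ∀ M k, mu (Ls M (i + k) ∩ cyl n B0) ≤
      2⁻¹ ^ M * 2⁻¹ ^ k * (2⁻¹ * 2⁻¹ * (2⁻¹ ^ (d i + 1) * 2⁻¹ ^ n)) := by
    intro M k
    by_cases h : M ≤ i + k
    · refine (mu_Ls M _ n (hn.trans (d_mono (by omega))) B0).trans ?_
      have h2 : d i ≤ d (i + k) := d_mono (by omega)
      have h3 : d (i + k + 1) = 2 * d (i + k) := by rw [d, d, pow_succ' 2 (i + k + 2)]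
      have h4 : 2 * (i + k) + 4 ≤ d (i + k) := by
        have : i + k + 1 < 2 ^ (i + k + 1) := Nat.lt_two_pow_self
        rw [d, pow_succ 2 (i + k + 1)]; omega
      have h5 := half_anti (show M + k + 1 + 1 + (d i + 1) + 1 ≤ d (i + k + 1) by omega)
      refine (mul_le_mul_left (mul_le_mul_right h5 _) _).trans_eq ?_
      rw [pow_succ, mul_comm (_ ^ _) 2⁻¹, ← mul_assoc, ENNReal.mul_inv_cancel (by simp) (by simp)]
      ring
    · rw [show Ls M (i + k) = ∅ from Set.eq_empty_of_forall_notMem fun _ hB => h hB.2.1]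
      simp
  simp only [L, Set.iUnion_inter]
  refine (measure_iUnion_le _).trans ((ENNReal.tsum_le_tsum fun M => (measure_iUnion_le _).trans
    (ENNReal.tsum_le_tsum fun k => h1 M k)).trans_eq ?_)
  simp only [ENNReal.tsum_mul_left, ENNReal.tsum_mul_right, ENNReal.tsum_geometric,
    ENNReal.one_sub_inv_two, inv_inv]
  have h : (2 : ℝ≥0∞) * 2⁻¹ = 1 := ENNReal.mul_inv_cancel (by simp) (by simp)
  calc _ = (2 * 2⁻¹) * (2 * 2⁻¹) * ((2⁻¹ : ℝ≥0∞) ^ (d i + 1) * 2⁻¹ ^ n) := by ring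
    _ = _ := by rw [h, one_mul, one_mul]

theorem pos_diff {S W : Set Om} (h : mu W < mu S) : 0 < mu (S \ W) := by
  by_contra h1
  have := measure_le_inter_add_sdiff mu S W
  rw [not_lt, nonpos_iff_eq_zero] at h1
  rw [h1, add_zero] at this
  exact (this.trans (measure_mono Set.inter_subset_right)).not_gt h

theorem pos_part {S : Set Om} {T : ℕ → Set Om} (h : 0 < mu S) (hT : ∀ B ∈ S, ∃ t, B ∈ T t) :
    ∃ t, 0 < mu (T t) :=
  exists_measure_pos_of_not_measure_iUnion_null (h.trans_le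
    (measure_mono fun B hB => Set.mem_iUnion.2 (hT B hB))).ne'

theorem act_lt {s : ℕ} {B : Om} (h : act s B) : II s < s :=
  lt_of_lt_of_le (by have := lt_d (II s + 2); omega) (act_iff.1 h).2.1

theorem blk_stay {M s t : ℕ} {B : Om} (h : ∀ s, t ≤ s → act s B → M ≤ MM s)
    (h1 : ¬ Blk act M t B) (hs : t ≤ s) : ¬ Blk act M s B := by
  rintro ⟨u, -, h2, h3, h4, h5, h6⟩
  have : u < t := by
    by_contra h7
    exact (h u (not_lt.1 h7) h2).not_gt h3
  exact h1 ⟨u, this, h2, h3, h4, h5.anti hs, fun v hv => h6 v (hv.trans_le hs)⟩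

def Free (B : Om) : Prop := ∀ M, ∃ t, (∀ s, t ≤ s → act s B → M ≤ MM s) ∧ ¬ Blk act M t B

theorem perm {s : ℕ} {B : Om} (h : act s B) (h1 : ∀ u, In (MM s) u B)
    (h2 : ∀ u, s ≤ u → act u B → MM s ≤ MM u) : B ∈ C (MM s) (II s) := fun t =>
  ⟨h1 t, fun u _ hu h3 => by
    rcases lt_or_ge u s with h4 | h4
    · exact (act_iff.1 h).2.2.1.2 u h4 hu h3
    · exact h2 u h4 h3⟩

theorem free_of {t : ℕ} {B : Om} (h1 : ∀ s, t ≤ s → act s B → B ∉ C (MM s) (II s))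
    (h2 : ∀ M, ¬ Blk act M t B) : Free B := by
  have h3 : ∀ M, ∃ t0, t ≤ t0 ∧ ∀ s, t0 ≤ s → act s B → M ≤ MM s := by
    intro M
    induction M with
    | zero => exact ⟨t, le_rfl, fun _ _ _ => Nat.zero_le _⟩
    | succ M ih =>
      obtain ⟨t0, h4, h5⟩ := ih
      by_cases h6 : ∀ u, In M u B
      · refine ⟨t0, h4, fun s hs h7 => lt_of_le_of_ne (h5 s hs h7) ?_⟩
        rintro rfl
        exact h1 s (h4.trans hs) h7 (perm h7 h6 fun u hu => h5 u (hs.trans hu))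
      · obtain ⟨u, hu⟩ := not_forall.1 h6
        refine ⟨max t0 u, h4.trans (le_max_left _ _), fun s hs h7 =>
          lt_of_le_of_ne (h5 s ((le_max_left _ _).trans hs) h7) ?_⟩
        rintro rfl
        exact hu ((act_iff.1 h7).2.2.1.1.anti ((le_max_right _ _).trans hs))
  intro M
  obtain ⟨t0, h4, h5⟩ := h3 M
  by_cases h6 : Blk act M t0 B
  swap
  · exact ⟨t0, h5, h6⟩
  obtain ⟨s, hs, h7, h8, h9, h10, h11⟩ := h6
  have h12 : t ≤ s := by
    by_contra h13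
    exact h2 M ⟨s, not_le.1 h13, h7, h8, h9, h10.anti h4, fun v hv => h11 v (hv.trans_le h4)⟩
  have h13 : ¬ ∀ u, In (MM s) u B := fun h => h1 s h12 h7 (perm h7 h fun u hu h14 => by
    rcases hu.eq_or_lt with rfl | hu
    · rfl
    · by_cases h15 : u < t0
      · exact absurd h14 (h11 u h15 hu)
      · exact h8.le.trans (h5 u (not_lt.1 h15) h14))
  obtain ⟨u, hu⟩ := not_forall.1 h13
  refine ⟨max t0 u, fun v hv => h5 v ((le_max_left _ _).trans hv), ?_⟩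
  rintro ⟨v, -, h14, h15, -, h16, h17⟩
  have h18 : v < t0 := by
    by_contra h19
    exact (h5 v (not_lt.1 h19) h14).not_gt h15
  rcases lt_trichotomy v s with h | rfl | h
  · exact h17 s (hs.trans_le (le_max_left _ _)) h h7
  · exact hu (h16.anti (le_max_right _ _))
  · exact h11 v h18 h h14

theorem mem_L {s i : ℕ} {B : Om} (h : act s B) (hi : i ≤ II s) (h1 : B ∈ C (MM s) (II s)) :
    B ∈ L i := by
  obtain ⟨k, hk⟩ := Nat.exists_eq_add_of_le hi
  exact Set.mem_iUnion₂.2 ⟨MM s, k, hk ▸ ⟨h1, (act_iff.1 h).1, s, (act_iff.1 h).2.2.2.1⟩⟩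

theorem free_pos : 0 < mu {B | Free B} := by
  have h := mu_L 0 0 (Nat.zero_le _) fun _ => true
  rw [show cyl 0 _ = Set.univ from Set.eq_univ_of_forall fun _ _ h => by omega,
    Set.inter_univ, pow_zero, mul_one] at h
  refine (pos_diff (S := Set.univ) (h.trans_lt ?_)).trans_le (measure_mono fun B hB =>
    free_of (t := 0) (fun s _ h1 h2 => hB.2 (mem_L h1 (Nat.zero_le _) h2)) fun M h => ?_)
  · rw [measure_univ]
    exact pow_lt_one' (by simp) (by simp)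
  · obtain ⟨s, hs, -⟩ := h
    omega

def G (M t : ℕ) : Set Om :=
  {B | (∀ u, In M u B) ∧ (∀ s, t ≤ s → act s B → M < MM s) ∧ ¬ Blk act M t B}

theorem act_lemma {M t : ℕ} {S : Set Om} (hS : S ⊆ G M t) (h0 : 0 < mu S) :
    ∃ i0, ∀ i, i0 ≤ i → ∃ t', t ≤ t' ∧ MM t' = M ∧ II t' = i ∧
      0 < mu {B | (∃ B0 ∈ S, B ∈ cyl t B0) ∧ (∀ u, In M u B) ∧ act t' B ∧
        (∀ s, t ≤ s → s ≠ t' → act s B → M < MM s) ∧ B ∉ L (i + 1)} := by
  obtain ⟨i0, h1⟩ := ENNReal.exists_inv_two_pow_lt h0.ne'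
  refine ⟨i0 + t + M, fun i hi => ?_⟩
  have d1 := lt_d i
  have d2 := lt_d (i + 1)
  have d3 : d (i + 1) ≤ d (i + 2) := d_mono (by omega)
  obtain ⟨σ, h2⟩ : ∃ σ, 2⁻¹ ^ d i * 2⁻¹ ^ d (i + 1) < mu (S ∩ cyl (d (i + 1)) σ) := by
    by_contra h
    simp only [not_exists, not_lt] at h
    have := avg' (B0 := fun _ => true) (Nat.zero_le _) fun B _ => h B
    rw [show cyl 0 _ = Set.univ from Set.eq_univ_of_forall fun _ _ h => by omega,
      Set.inter_univ, pow_zero, mul_one] at this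
    exact (this.trans (half_anti (by omega : i0 ≤ d i))).not_gt h1
  obtain ⟨B0, hB0, h3⟩ := nonempty_of_measure_ne_zero (ne_bot_of_gt h2)
  rw [← cyl_eq h3] at h2
  have h4 : S ⊆ C M i := fun B hB u =>
    ⟨(hS hB).1 u, fun s _ hs h => ((hS hB).2.1 s (by omega) h).le⟩
  have h5 : ∃ z, (∀ j < d (i + 1), tb z j = B0 j) ∧ ∀ u, Alive act M i u (tb z) := by
    by_contra h
    have := avg' (W := C M i) (B0 := B0) (η := 2⁻¹ ^ d (i + 1)) d3 fun B hB => by
      refine (not_le.1 fun h5 => h ⟨cd B (d (i + 2)), fun j hj => ?_, fun u => ?_⟩).le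
      · exact (tb_cd _ _ _ (hj.trans_le d3)).trans (hB j hj)
      · exact ((alive_loc _ _ _ _).iff _).2 (alive_iff.2 h5 u)
    exact ((measure_mono (Set.inter_subset_inter_left _ h4)).trans (this.trans (mul_le_mul_left
      (half_anti (d_mono (Nat.le_succ i))) _))).not_gt h2
  obtain ⟨h6, h7⟩ := Nat.find_spec h5
  have h8 : ∀ᶠ u in atTop, ∀ z ∈ Set.Iio (Nat.find h5),
      (∀ j < d (i + 1), tb z j = B0 j) → ¬ Alive act M i u (tb z) := by
    rw [eventually_all_finite (Set.finite_Iio _)]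
    intro z hz
    by_cases h : ∀ j < d (i + 1), tb z j = B0 j
    · obtain ⟨u, hu⟩ := not_forall.1 fun h9 => Nat.find_min h5 hz ⟨h, h9⟩
      filter_upwards [eventually_ge_atTop u] with v hv _ h9 using hu (h9.anti hv)
    · exact Eventually.of_forall fun _ h9 => absurd h9 h
  obtain ⟨u0, h8⟩ := eventually_atTop.1 h8
  set z := Nat.find h5 with hz
  have h10 : cd (tb z) (d (i + 2)) ≤ z := by
    by_cases h : z < 2 ^ d (i + 2)
    · exact (cd_tb h).le
    · exact (cd_lt _ _).le.trans (not_lt.1 h)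
  have h11 : 0 < mu ((C M i ∩ cyl (d (i + 2)) (tb z)) \ (L (i + 1) ∩ cyl (d (i + 2)) (tb z))) := by
    refine pos_diff ((mu_L (i + 1) _ le_rfl _).trans_lt (lt_of_lt_of_le ?_ (alive_iff.1 h7)))
    refine ENNReal.mul_lt_mul_left (by simp) (by simp) ?_
    rw [pow_succ]
    exact (ENNReal.mul_lt_mul_right (by simp) (by simp) ENNReal.one_half_lt_one).trans_eq
      (mul_one _)
  have h12 : ∀ B ∈ (C M i ∩ cyl (d (i + 2)) (tb z)) \ (L (i + 1) ∩ cyl (d (i + 2)) (tb z)),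
      ∃ t', B ∈ {B | (t ≤ t' ∧ MM t' = M ∧ II t' = i) ∧ (∃ B0 ∈ S, B ∈ cyl t B0) ∧
        (∀ u, In M u B) ∧ act t' B ∧ (∀ s, t ≤ s → s ≠ t' → act s B → M < MM s) ∧
          B ∉ L (i + 1)} := by
    rintro B ⟨⟨hC, hB⟩, hL⟩
    replace hL : B ∉ L (i + 1) := fun h => hL ⟨h, hB⟩
    obtain ⟨g1, g2, g3⟩ := hS hB0
    have e : ∀ j < d (i + 1), B j = B0 j := fun j hj => (hB j (hj.trans_le d3)).trans (h6 j hj)
    have f1 : ∀ s ≤ i, act s B ↔ act s B0 := fun s hs =>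
      ⟨loc_mono (act_loc s) (by omega) _ _ e, loc_symm (loc_mono (act_loc s) (by omega)) e⟩
    have f2 : ∀ s, t ≤ s → act s B → M ≤ MM s := fun s hs h => by
      rcases le_total s i with h1 | h1
      · exact (g2 s hs ((f1 s h1).1 h)).le
      · exact (hC (s + 1)).2 s (by omega) h1 h
    have f3 : ∀ s, t ≤ s → ¬ Blk act M s B := fun s => blk_stay f2 fun h => g3
      (loc_mono (blk_loc (fun s hs => loc_mono (act_loc s) hs.le) M) (by omega) _ _ e h)
    have f4 : ∀ s, t ≤ s → act s B → MM s = M → II s = i := by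
      rintro s hs h rfl
      rcases lt_trichotomy (II s) i with h1 | h1 | h1
      · obtain ⟨k1, k2, k3, k4, -, k6⟩ := act_iff.1 h
        refine absurd (g2 s hs (act_iff.2 ⟨k1, k2, ⟨g1 s, fun v hv hv' h2 => ?_⟩,
          loc_mono (left_loc _ _ _ _) (d_mono (by omega)) _ _ e k4,
          blk_stay (fun v hv h2 => (g2 v hv h2).le) g3 hs, fun v hv h2 h3 => ?_⟩)) (lt_irrefl _)
        · rcases le_total t v with h3 | h3
          · exact (g2 v h3 h2).le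
          · exact k3.2 v hv hv' ((f1 v (by omega)).2 h2)
        · rcases le_total t v with h4 | h4
          · exact absurd h3 (g2 v h4 h2).not_ge
          · exact k6 v hv ((f1 v (by omega)).2 h2) h3
      · exact h1
      · exact absurd (mem_L h h1 (perm h (fun u => (hC u).1) fun u hu => f2 u (hs.trans hu))) hL
    have f6 : ∃ s, t ≤ s ∧ act s B ∧ MM s = M := by
      by_contra h
      have k1 := Nat.right_le_pair (Nat.pair M i) (u0 + d (i + 2) + t)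
      set s := Nat.pair (Nat.pair M i) (u0 + d (i + 2) + t) with hs
      have k2 : MM s = M := by simp [MM, hs]
      have k3 : II s = i := by simp [II, hs]
      refine h ⟨s, by omega, act_iff.2 ?_, k2⟩
      rw [Step, k2, k3]
      refine ⟨by omega, by omega, hC s, ⟨loc_symm (alive_loc _ _ _ _) hB (h7 s), fun y hy h1 =>
        h8 s (by omega) y ((cd_congr hB ▸ hy).trans_le h10) fun j hj => (h1 j hj).trans (e j hj)⟩,
        f3 s (by omega), fun v _ h1 h2 => ?_⟩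
      rcases le_total t v with h3 | h3
      · exact absurd ⟨v, h3, h1, le_antisymm h2 (f2 v h3 h1)⟩ h
      · have := act_lt h1
        omega
    obtain ⟨s, k1, k2, k3⟩ := f6
    refine ⟨s, ⟨k1, k3, f4 s k1 k2 k3⟩, ⟨B0, hB0, fun j hj => e j (by omega)⟩, fun u => (hC u).1,
      k2, fun v hv hne h => lt_of_le_of_ne (f2 v hv h) fun h1 => ?_, hL⟩
    have k4 := f4 s k1 k2 k3
    have k5 := f4 v hv h h1.symm
    rcases lt_or_gt_of_ne hne with h2 | h2
    · have := (act_iff.1 k2).2.2.2.2.2 v h2 h (by omega)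
      omega
    · have := (act_iff.1 h).2.2.2.2.2 s h2 k2 (by omega)
      omega
  obtain ⟨t', h13⟩ := pos_part h11 h12
  obtain ⟨B, hB⟩ := nonempty_of_measure_ne_zero h13.ne'
  exact ⟨t', hB.1.1, hB.1.2.1, hB.1.2.2, h13.trans_le (measure_mono fun B hB => hB.2)⟩

theorem locked {M t s : ℕ} {B : Om} (h1 : ∀ u, In M u B) (h2 : act t B) (h3 : MM t = M)
    (h4 : II t % 2 = 0) (h5 : ∀ v, t < v → v < s → act v B → M < MM v) :
    ∀ v, t < v → v < s → ¬ act v B := by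
  intro v
  induction v using Nat.strong_induction_on with
  | _ v ih =>
    intro hv hs h
    exact (act_iff.1 h).2.2.2.2.1 ⟨t, hv, h2, h3 ▸ h5 v hv hs h, h4, h3 ▸ h1 v,
      fun u hu h6 => ih u hu h6 (hu.trans hs)⟩

/-- One round: lock, then send any message from a set of odd levels chosen after the lock. -/
theorem round {M : ℕ} (h0 : 0 < mu {B | (∀ u, In M u B) ∧ Free B}) : ∃ t, ∀ I : Set ℕ,
    (∀ n, ∃ i ∈ I, n ≤ i ∧ i % 2 = 1) → ∃ t', II t' ∈ I ∧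
      0 < mu {B | (∀ u, In M u B) ∧ Free B ∧ act t' B ∧ ∀ s, t < s → s < t' → ¬ act s B} := by
  obtain ⟨t0, h1⟩ := pos_part (T := G M) h0 fun B hB => by
    obtain ⟨t, h1, h2⟩ := hB.2 (M + 1)
    exact ⟨t, hB.1, h1, fun ⟨s, k1, k2, k3, k4⟩ => h2 ⟨s, k1, k2, by omega, k4⟩⟩
  obtain ⟨i0, h2⟩ := act_lemma le_rfl h1
  obtain ⟨t1, k1, k2, k3, h3⟩ := h2 (2 * i0) (by omega)
  refine ⟨t1, fun I hI => ?_⟩
  obtain ⟨i1, h4⟩ := act_lemma (M := M) (t := t1 + 1) (fun B hB => ⟨hB.2.1,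
    fun s hs => hB.2.2.2.1 s (by omega) (by omega), fun ⟨s, k4, k5, k6, _, _, k7⟩ => by
      rcases (Nat.lt_succ_iff.1 k4).eq_or_lt with rfl | k8
      · omega
      · exact k7 t1 (by omega) k8 hB.2.2.1⟩) h3
  obtain ⟨i, hi, k4, k5⟩ := hI i1
  obtain ⟨t2, k6, k7, k8, h5⟩ := h4 i k4
  refine ⟨t2, k8 ▸ hi, h5.trans_le (measure_mono ?_)⟩
  rintro B ⟨⟨B0, hB0, e⟩, g1, g2, g3, g4⟩
  refine ⟨g1, free_of (t := t2 + 1) (fun s hs h h6 => g4 (mem_L h ?_ h6)) ?_, g2,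
    locked g1 (loc_symm (loc_mono (act_loc t1) (Nat.le_succ _)) e hB0.2.2.1) k2 (by omega)
      fun v hv hv' => g3 v hv hv'.ne⟩
  · have := g3 s (by omega) (by omega) h
    exact k8 ▸ (act_iff.1 h).2.2.2.2.2 t2 hs g2 (by omega)
  · rintro M' ⟨s, m1, -, -, m4, -, m6⟩
    rcases (Nat.lt_succ_iff.1 m1).eq_or_lt with rfl | m7
    · omega
    · exact m6 t2 (by omega) m7 g2

end Pool.Agent.H.MP_ad67df_lc
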