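import Pool.Agent.H.MP_ad67df_lc.B
import Pool.Agent.H.MP_e12961_lc.B

set_option autoImplicit false

namespace Pool.Agent.H.MP_ad67df_lc

open Pool.Agent.Lib.helper21.Fn Pool.Agent.Lib.helper21.CPred Finset MeasureTheory Filter
open Pool.Agent.H.MP_e12961_lc Encodable Denumerable
open Nat.Partrec (Code)
open Nat.Partrec.Code
open scoped ENNReal Classical

structure Cond where
  T : ℕ → Om → Prop
  loc : ∀ s, Loc s (T s)
  comp : ComputablePred fun a : ℕ × ℕ => T a.1 (tb a.2)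
  pos : 0 < mu {B | (∀ s, T s B) ∧ Free B}

def Cond.K (τ : Cond) : Set Om := {B | ∀ s, τ.T s B}

theorem Cond.index (τ : Cond) : ∃ M, ∀ B, (∀ u, In M u B) ↔ ∀ s, τ.T s B := by
  have h1 : ComputablePred fun n : ℕ => ¬ τ.T n.unpair.1.unpair.1 (tb n.unpair.1.unpair.2) :=
    (ccomp τ.comp (Computable.unpair.comp (Computable.fst.comp Computable.unpair))).not
  obtain ⟨c, hc⟩ := exists_code.1 (Partrec.nat_iff.1 (h1.to_re.map
    (g := fun _ _ => 0) (Computable.const 0).to₂))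
  have h2 : ∀ k B v, v ∈ c.eval (Nat.pair (Nat.pair k (cd B k)) 0) ↔ ¬ τ.T k B ∧ v = 0 := by
    intro k B v
    simp [hc, (τ.loc k).iff, eq_comm]
  refine ⟨encode c, fun B => ⟨fun h s => ?_, fun h _ u _ => ?_⟩⟩
  · by_contra h3
    obtain ⟨t, ht⟩ := evaln_complete.1 ((h2 s B 0).2 ⟨h3, rfl⟩)
    have h4 := h _ (Nat.pair s (t + 1)) (Nat.lt_succ_self _)
    have h5 := Nat.right_le_pair s (t + 1)
    simp only [att, raw, Nat.unpair_pair, ofNat_encode,
      Option.mem_def.1 (evaln_mono (Nat.le_succ t) ht), encode_some, encode_nat] at h4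
    rw [if_pos (by omega)] at h4
    omega
  · unfold att
    split_ifs
    · simp only [raw, ofNat_encode]
      cases hv : evaln u.unpair.2 c (Nat.pair (Nat.pair u.unpair.1 (cd B u.unpair.1)) 0) with
      | none => rfl
      | some v => exact absurd (h _) ((h2 _ _ _).1 (evaln_sound hv)).1
    · rfl

theorem Cond.shrink (τ : Cond) (T : ℕ → Om → Prop) (loc : ∀ s, Loc s (T s))
    (comp : ComputablePred fun a : ℕ × ℕ => T a.1 (tb a.2))
    (pos : 0 < mu {B | ((∀ s, τ.T s B) ∧ Free B) ∧ ∀ s, T s B}) :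
    ∃ τ' : Cond, τ'.K ⊆ τ.K ∧ ∀ B ∈ τ'.K, ∀ s, T s B :=
  ⟨⟨fun s B => τ.T s B ∧ T s B, fun s _ _ e h => ⟨τ.loc s _ _ e h.1, loc s _ _ e h.2⟩,
    cand τ.comp comp, pos.trans_le (measure_mono fun _ h => ⟨fun s => ⟨h.1.1 s, h.2 s⟩, h.1.2⟩)⟩,
    fun _ h s => (h s).1, fun _ h s => (h s).2⟩

def PP (i : ℕ) : ℕ := (i / 2).unpair.1.unpair.1

def ZZ (i : ℕ) : ℕ := (i / 2).unpair.1.unpair.2

open Computable in
theorem stepC (X : Om) (R : ℕ) (τ : Cond) : ∃ τ' : Cond, τ'.K ⊆ τ.K ∧ ∀ B ∈ τ'.K, ∃ p t,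
    act t B ∧ PP (II t) = R * (p + 1) ∧ ZZ (II t) = cd X (R * (p + 1)) ∧
      ∀ s < t, act s B → PP (II s) ≤ p := by
  obtain ⟨M, hM⟩ := τ.index
  obtain ⟨t, ht⟩ := round (M := M) (by simpa only [hM] using τ.pos)
  let p := (range (t + 1)).sup fun s => PP (II s)
  obtain ⟨t', h1, h2⟩ := ht {i | PP i = R * (p + 1) ∧ ZZ i = cd X (R * (p + 1))} fun n => by
    have := Nat.right_le_pair (Nat.pair (R * (p + 1)) (cd X (R * (p + 1)))) n
    refine ⟨2 * Nat.pair (Nat.pair (R * (p + 1)) (cd X (R * (p + 1)))) n + 1, ?_, by omega,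
      by omega⟩
    simp [PP, ZZ, Nat.mul_add_div]
  have h3 : ComputablePred fun a : (ℕ × ℕ) × ℕ => t < a.2 → ¬ act a.2 (tb a.1.2) :=
    cimp (clt (const t) snd) (ccomp act_comp (snd.pair (snd.comp fst))).not
  obtain ⟨τ', h4, h5⟩ := τ.shrink (fun u B => t' ≤ u → act t' B ∧ ∀ s < t', t < s → ¬ act s B)
    (fun u _ _ e h hu => ⟨loc_mono (act_loc t') hu _ _ e (h hu).1, fun s hs h6 h7 =>
      (h hu).2 s hs h6 (loc_symm (loc_mono (act_loc s) (by omega)) e h7)⟩)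
    (cimp (cle (const t') fst) (cand (ccomp act_comp ((const t').pair snd)) (call h3 (const t'))))
    (h2.trans_le (measure_mono fun B h => ⟨⟨(hM B).1 h.1, h.2.1⟩,
      fun _ _ => ⟨h.2.2.1, fun s hs h6 => h.2.2.2 s h6 hs⟩⟩))
  refine ⟨τ', h4, fun B hB => ⟨p, t', (h5 B hB t' le_rfl).1, h1.1, h1.2, fun s hs h6 => ?_⟩⟩
  refine le_sup (f := fun s => PP (II s)) (mem_range.2 ?_)
  by_contra h7
  exact (h5 B hB t' le_rfl).2 s hs (by omega) h6

def Pre (σ : List Bool) (B : Om) : Prop := ∀ j < σ.length, σ.getD j false = B j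

theorem ofFn_iff (σ : List Bool) (B : Om) :
    List.ofFn (fun i : Fin σ.length => B i) = σ ↔ Pre σ B := by
  rw [List.ext_getElem_iff]
  simp only [List.length_ofFn, true_and, List.getElem_ofFn, Pre]
  exact forall₂_congr fun j hj => by simp [hj, eq_comm]

theorem pre_iff (σ : List Bool) (B : Om) (N : ℕ) :
    σ <+: List.ofFn (fun i : Fin N => B i) ↔ σ.length ≤ N ∧ Pre σ B := by
  rw [List.prefix_iff_getElem]
  simp only [List.length_ofFn, List.getElem_ofFn, Pre, exists_prop]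
  exact and_congr_right fun _ => forall₂_congr fun j hj => by simp [hj]

theorem mu_fin (N : ℕ) (S : Set (Fin N → Bool)) :
    mu {B | (fun i : Fin N => B i) ∈ S} = S.ncard * 2⁻¹ ^ N := by
  let x : (Fin N → Bool) → Om := fun τ i => if h : i < N then τ ⟨i, h⟩ else false
  have h1 : ∀ τ B, B ∈ cyl N (x τ) ↔ (fun i : Fin N => B i) = τ := fun τ B =>
    ⟨fun h => funext fun i => (h i i.2).trans (by simp [x]),
      fun h i hi => by simp [x, hi, ← h]⟩
  have : {B : Om | (fun i : Fin N => B i) ∈ S} = ⋃ τ ∈ S.toFinset, cyl N (x τ) := by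
    ext B; simp [h1]
  rw [this, measure_biUnion_finset (f := fun τ => cyl N (x τ)) _
    fun m _ => (cyl_loc _ _).closed.measurableSet]
  · simp [mu_cyl', Set.ncard_eq_toFinset_card']
  · exact fun τ _ τ' _ hne => Set.disjoint_left.2 fun B h2 h3 =>
      hne (((h1 _ _).1 h2).symm.trans ((h1 _ _).1 h3))

def Valid (f : ℕ → Option (ℕ × List Bool)) : Prop :=
  ∀ n L : ℕ, {τ : Fin L → Bool | ∃ k : ℕ, ∃ σ : List Bool,
    f k = some (n, σ) ∧ List.IsPrefix σ (List.ofFn τ)}.ncard * 2 ^ n ≤ 2 ^ L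

def U (f : ℕ → Option (ℕ × List Bool)) (n : ℕ) : Set Om :=
  {B | ∃ k σ, f k = some (n, σ) ∧ Pre σ B}

theorem valid_iff {f : ℕ → Option (ℕ × List Bool)} : Valid f ↔ ∀ n, mu (U f n) ≤ 2⁻¹ ^ n := by
  refine forall_congr' fun n => ?_
  have : U f n = ⋃ N, {B | ∃ k σ, f k = some (n, σ) ∧ σ.length ≤ N ∧ Pre σ B} := by
    ext B
    simp only [U, Set.mem_ofPred_eq, Set.mem_iUnion]
    exact ⟨fun ⟨k, σ, h1, h2⟩ => ⟨_, k, σ, h1, le_rfl, h2⟩, fun ⟨_, k, σ, h1, _, h2⟩ =>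
      ⟨k, σ, h1, h2⟩⟩
  rw [this, Monotone.measure_iUnion (s := fun N => {B | ∃ k σ, f k = some (n, σ) ∧
    σ.length ≤ N ∧ Pre σ B}) fun N N' h B ⟨k, σ, h1, h2, h3⟩ => ⟨k, σ, h1, h2.trans h, h3⟩,
    iSup_le_iff]
  refine forall_congr' fun N => ?_
  have h1 := mu_fin N {τ | ∃ k σ, f k = some (n, σ) ∧ List.IsPrefix σ (List.ofFn τ)}
  simp only [Set.mem_ofPred_eq, pre_iff] at h1
  rw [h1, ← ENNReal.inv_pow, ← ENNReal.inv_pow, ← div_eq_mul_inv,
    ENNReal.div_le_iff (by simp) (by simp), mul_comm (_⁻¹), ← div_eq_mul_inv,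
    ENNReal.le_div_iff_mul_le (by simp) (by simp)]
  norm_cast

def Rand (A : Om) : Prop := ∀ f : ℕ → Option (ℕ × List Bool), Computable f → Valid f →
  ∃ n : ℕ, ∀ k : ℕ, ∀ σ : List Bool, f k = some (n, σ) →
    List.ofFn (fun i : Fin σ.length => A i.val) ≠ σ

open Computable in
theorem stepA (f : ℕ → Option (ℕ × List Bool)) (hf : Computable f) (hv : Valid f) (τ : Cond) :
    ∃ τ' : Cond, τ'.K ⊆ τ.K ∧ ∃ n, ∀ B ∈ τ'.K, B ∉ U f n := by
  obtain ⟨n, hn⟩ := ENNReal.exists_inv_two_pow_lt τ.pos.ne'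
  let o : ℕ → ℕ × List Bool := fun k => (f k).getD (n + 1, [])
  have ho : Computable o := option_getD hf (const _)
  have h1 : ComputablePred fun a : ((ℕ × ℕ) × ℕ) × ℕ =>
      (o a.1.2).2.getD a.2 false = tb a.1.1.2 a.2 :=
    ceq ((Primrec.list_getD false).to_comp.comp (snd.comp (ho.comp (snd.comp fst))) snd)
      (tb_prim.to_comp.comp (snd.comp (fst.comp fst)) snd)
  have h2 : Computable fun a : (ℕ × ℕ) × ℕ => (o a.2).2.length :=
    list_length.comp (snd.comp (ho.comp snd))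
  have h3 : ComputablePred fun a : (ℕ × ℕ) × ℕ => (o a.2).1 = n → (o a.2).2.length ≤ a.1.1 →
      ¬ Pre (o a.2).2 (tb a.1.2) :=
    cimp (ceq (fst.comp (ho.comp snd)) (const n)) (cimp (cle h2 (fst.comp fst)) (call h1 h2).not)
  obtain ⟨τ', h4, h5⟩ := τ.shrink
    (fun u B => ∀ k < u, (o k).1 = n → (o k).2.length ≤ u → ¬ Pre (o k).2 B)
    (fun u _ _ e h k hk h6 h7 h8 => h k hk h6 h7 fun j hj => (h8 j hj).trans (e j (by omega)).symm)
    (call h3 fst) ((pos_diff ((valid_iff.1 hv n).trans_lt hn)).trans_le (measure_mono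
      fun B h => ⟨h.1, fun u k _ h6 _ h7 => h.2 ⟨k, (o k).2, by
        cases h8 : f k with
        | none => simp [o, h8] at h6
        | some v =>
          simp only [o, h8, Option.getD_some] at h6 ⊢
          rw [← h6], h7⟩⟩))
  refine ⟨τ', h4, n, fun B hB ⟨k, σ, h6, h7⟩ => ?_⟩
  exact h5 B hB (k + σ.length + 1) k (by omega) (by simp [o, h6]) (by simp [o, h6]; omega)
    (by simpa [o, h6] using h7)

def Ws (e N s : ℕ) (Z B : Om) : Prop := ∀ j < N, (∃ u < s, att e B u j ≠ 0) ∧ svs e B s j = Z j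

def W (e N : ℕ) (Z : Om) : Set Om := {B | ∀ j < N, (∃ u, att e B u j ≠ 0) ∧ sv e B j = Z j}

theorem Ws_iff {e N s : ℕ} {Z B : Om} :
    Ws e N s Z B ↔ ∀ j < N, (∃ u < s, att e B u j ≠ 0) ∧ sv e B j = Z j :=
  forall₂_congr fun _ _ => and_congr_right fun h => by rw [svs_eq h]

theorem Ws_loc (e N s : ℕ) (Z : Om) : Loc s (Ws e N s Z) := fun B B' h h1 j hj => by
  obtain ⟨⟨u, hu, h2⟩, h3⟩ := h1 j hj
  refine ⟨⟨u, hu, att_congr e h hu.le j ▸ h2⟩, Eq.trans ?_ h3⟩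
  simp only [svs, decide_eq_decide]
  refine exists_congr fun u => and_congr_right fun hu => ?_
  rw [att_congr e h hu.le]
  exact and_congr_right fun _ => forall₂_congr fun v hv => by rw [att_congr e h (hv.trans hu).le]

theorem W_eq (e N : ℕ) (Z : Om) : W e N Z = ⋃ s, {B | Ws e N s Z B} := by
  ext B
  simp only [W, Set.mem_ofPred_eq, Set.mem_iUnion, Ws_iff]
  refine ⟨fun h => ?_, fun ⟨s, h⟩ j hj => ⟨(h j hj).1.imp fun u hu => hu.2, (h j hj).2⟩⟩
  choose! u hu using fun j hj => (h j hj).1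
  exact ⟨(range N).sup u + 1, fun j hj => ⟨⟨u j, Nat.lt_succ_of_le (le_sup (mem_range.2 hj)),
    hu j hj⟩, (h j hj).2⟩⟩

theorem mu_W (e N : ℕ) (Z : Om) : mu (W e N Z) = ⨆ s, mu {B | Ws e N s Z B} := by
  rw [W_eq, Monotone.measure_iUnion (s := fun s => {B | Ws e N s Z B})]
  exact fun s t h B hB => Ws_iff.2 fun j hj => ⟨(Ws_iff.1 hB j hj).1.imp fun u hu =>
    ⟨hu.1.trans_le h, hu.2⟩, (Ws_iff.1 hB j hj).2⟩

variable {α : Type} [Primcodable α]

open Computable in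
theorem Ws_comp (e : ℕ) {N s z m : α → ℕ} (hN : Computable N) (hs : Computable s)
    (hz : Computable z) (hm : Computable m) :
    ComputablePred fun a => Ws e (N a) (s a) (tb (z a)) (tb (m a)) := by
  have h1 : ComputablePred fun a : (α × ℕ) × ℕ => att e (tb (m a.1.1)) a.2 a.1.2 ≠ 0 :=
    (ceq (att_comp (const e) (tb_comp (hm.comp (fst.comp fst))) snd (snd.comp fst)) (const 0)).not
  have h2 : ComputablePred fun a : α × ℕ => svs e (tb (m a.1)) (s a.1) a.2 = tb (z a.1) a.2 :=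
    ceq (svs_comp (const e) (tb_comp (hm.comp fst)) (hs.comp fst) snd)
      (tb_prim.to_comp.comp (hz.comp fst) snd)
  exact call (cand (cex h1 (hs.comp fst)) h2) hN

open Computable in
theorem small_W {A : Om} (hA : Rand A) (e c : ℕ) : ∃ N, mu (W e N A) ≤ 2⁻¹ ^ c := by
  let p : ℕ × ℕ × ℕ → Prop := fun x =>
    2 ^ x.2.2 < 2 ^ c * #{m ∈ range (2 ^ x.2.2) | Ws e (x.1 + c) x.2.2 (tb x.2.1) (tb m)}
  have hp : ∀ x, p x ↔ 2⁻¹ ^ c < mu {B | Ws e (x.1 + c) x.2.2 (tb x.2.1) B} := fun x => by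
    have := mu_loc_le (Ws_loc e (x.1 + c) x.2.2 (tb x.2.1)) (2 ^ c) (by positivity)
    rw [Nat.cast_pow, ENNReal.inv_pow, ← not_iff_not, not_le, not_le] at this
    exact this.symm
  have h0 : Primrec fun x : ℕ × ℕ × ℕ => x.1 + c := Primrec.nat_add.comp Primrec.fst (.const c)
  have h1 : ComputablePred p := clt (pow2.to_comp.comp (snd.comp snd))
    (Primrec.nat_mul.to_comp.comp (const _) (ccount (p := fun (x : ℕ × ℕ × ℕ) m =>
      Ws e (x.1 + c) x.2.2 (tb x.2.1) (tb m)) (Ws_comp e (h0.to_comp.comp fst)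
        (snd.comp (snd.comp fst)) (fst.comp (snd.comp fst)) snd)
      (pow2.to_comp.comp (snd.comp snd))))
  let g : ℕ × ℕ × ℕ → Option (ℕ × List Bool) := fun x =>
    if p x then some (x.1, (List.range (x.1 + c)).map (tb x.2.1)) else none
  have h2 : Computable g := cite h1 (Primrec.option_some.comp (Primrec.fst.pair (Primrec.list_map
    (Primrec.list_range.comp h0) (tb_prim.comp (Primrec.fst.comp (Primrec.snd.comp Primrec.fst))
      Primrec.snd).to₂))).to_comp (const none)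
  have h3 : ∀ N z B, Pre ((List.range N).map (tb z)) B ↔ B ∈ cyl N (tb z) := fun N z B => by
    simp only [Pre, List.length_map, List.length_range]
    exact forall₂_congr fun j hj => by simp [hj, eq_comm]
  obtain ⟨n, hn⟩ := hA (fun k => g (ofNat _ k)) (h2.comp (Computable.ofNat _)) (valid_iff.2 fun n => by
    let Z : Finset ℕ := {m ∈ range (2 ^ (n + c)) | 2⁻¹ ^ c < mu (W e (n + c) (tb m))}
    have h4 : #Z * (2⁻¹ : ℝ≥0∞) ^ c ≤ 1 := by
      rw [← nsmul_eq_mul]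
      refine (card_nsmul_le_sum Z (fun m => mu (W e (n + c) (tb m))) _
        fun m hm => (mem_filter.1 hm).2.le).trans ?_
      rw [← measure_biUnion_finset]
      · exact prob_le_one
      · intro m hm m' hm' hne
        refine Set.disjoint_left.2 fun B h5 h6 => hne ?_
        rw [← cd_tb (mem_range.1 (mem_filter.1 hm).1), ← cd_tb (mem_range.1 (mem_filter.1 hm').1)]
        exact cd_congr fun j hj => (h5 j hj).2.symm.trans (h6 j hj).2
      · exact fun m _ => W_eq _ _ _ ▸ MeasurableSet.iUnion fun s =>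
          (Ws_loc _ _ _ _).closed.measurableSet
    refine (measure_mono (t := ⋃ m ∈ Z, cyl (n + c) (tb m)) ?_).trans
      ((measure_biUnion_finset_le _ _).trans ?_)
    · rintro B ⟨k, σ, h5, h6⟩
      dsimp only at h5
      generalize ofNat (ℕ × ℕ × ℕ) k = x at h5
      simp only [g] at h5
      split_ifs at h5 with h7
      obtain ⟨rfl, rfl⟩ := Prod.mk.inj (Option.some.inj h5)
      refine Set.mem_biUnion (x := cd B (x.1 + c)) (mem_coe.2 (mem_filter.2 ⟨mem_range.2 (cd_lt _ _),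
        ((hp x).1 h7).trans_le (measure_mono fun Y hY j hj => ?_)⟩)) fun j hj =>
          (tb_cd _ _ _ hj).symm
      obtain ⟨⟨u, -, h8⟩, h9⟩ := Ws_iff.1 hY j hj
      exact ⟨⟨u, h8⟩, h9.trans (((h3 _ _ _).1 h6 j hj).symm.trans (tb_cd _ _ _ hj).symm)⟩
    · simp only [mu_cyl', sum_const, nsmul_eq_mul]
      rw [pow_add, mul_left_comm]
      exact (mul_le_mul_right h4 _).trans_eq (mul_one _))
  refine ⟨n + c, not_lt.1 fun h => ?_⟩
  rw [mu_W, lt_iSup_iff] at h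
  obtain ⟨s, hs⟩ := h
  have h4 : p (n, cd A (n + c), s) := (hp _).2 (hs.trans_le (measure_mono fun B hB j hj =>
    ⟨(hB j hj).1, (hB j hj).2.trans (tb_cd _ _ _ hj).symm⟩))
  refine hn (encode (n, cd A (n + c), s)) _ (by simp only [ofNat_encode, g, if_pos h4]; rfl) ?_
  exact (ofFn_iff _ _).2 ((h3 _ _ _).2 fun j hj => (tb_cd _ _ _ hj).symm)

open Computable in
theorem stepB {A : Om} (hA : Rand A) (e : ℕ) (τ : Cond) : ∃ τ' : Cond, τ'.K ⊆ τ.K ∧
    ∀ B ∈ τ'.K, ¬ ((∀ j, ∃ u, att e B u j ≠ 0) ∧ sv e B = A) := by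
  obtain ⟨c, hc⟩ := ENNReal.exists_inv_two_pow_lt τ.pos.ne'
  obtain ⟨N, hN⟩ := small_W hA e c
  have h0 : ∀ s B, Ws e N s (tb (cd A N)) B ↔ Ws e N s A B := fun s B =>
    forall₂_congr fun j hj => by rw [tb_cd _ _ _ hj]
  obtain ⟨τ', h1, h2⟩ := τ.shrink (fun s B => ¬ Ws e N s A B)
    (fun s _ _ h h1 h2 => h1 (loc_symm (Ws_loc _ _ _ _) h h2))
    ((Ws_comp e (const N) fst (const (cd A N)) snd).not.of_eq fun a => by rw [h0])
    ((pos_diff (hN.trans_lt hc)).trans_le (measure_mono fun B h => ⟨h.1, fun s h1 =>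
      h.2 (W_eq _ _ _ ▸ Set.mem_iUnion.2 ⟨s, h1⟩)⟩))
  refine ⟨τ', h1, fun B hB h => ?_⟩
  have : B ∈ W e N A := fun j _ => ⟨h.1 j, congrFun h.2 j⟩
  rw [W_eq] at this
  obtain ⟨s, hs⟩ := Set.mem_iUnion.1 this
  exact h2 B hB s hs

end Pool.Agent.H.MP_ad67df_lc
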