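import Pool.Agent.H.MP_ad67df_lc.C

set_option autoImplicit false

namespace Pool.Agent.H.MP_ad67df_lc

open Pool.Agent.Lib.helper21.Fn Pool.Agent.Lib.helper21.CPred Finset MeasureTheory Filter
open Pool.Agent.H.MP_e12961_lc Encodable Denumerable
open Nat.Partrec (Code)
open Nat.Partrec.Code
open scoped ENNReal Classical

theorem generic {A : Om} (hA : Rand A) : ∃ B, Rand B ∧ ¬ TuringReducible (orc A) (orc B) ∧
    ∀ e R, ∃ p t, act t B ∧ R * (p + 1) ≤ PP (II t) ∧
      (∀ n < R * (p + 1), tb (ZZ (II t)) n = !sv e A n) ∧ ∀ s < t, act s B → PP (II s) ≤ p := by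
  have h1 : ∀ (s : ℕ) (τ : Cond), ∃ τ' : Cond, τ'.K ⊆ τ.K ∧ ∀ f : ℕ → Option (ℕ × List Bool),
      Computable f → Valid f → (∀ n, (ofNat Code s).eval n = Part.some (encode (f n))) →
        ∃ n, ∀ B ∈ τ'.K, B ∉ U f n := by
    intro s τ
    by_cases h : ∃ f : ℕ → Option (ℕ × List Bool), Computable f ∧ Valid f ∧
      ∀ n, (ofNat Code s).eval n = Part.some (encode (f n))
    · obtain ⟨f, h1, h2, h3⟩ := h
      obtain ⟨τ', h4, h5⟩ := stepA f h1 h2 τ
      refine ⟨τ', h4, fun g _ _ h6 => ?_⟩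
      rwa [show g = f from funext fun n =>
        encode_injective (Part.some_injective ((h6 n).symm.trans (h3 n)))]
    · exact ⟨τ, le_rfl, fun f h1 h2 h3 => absurd ⟨f, h1, h2, h3⟩ h⟩
  choose F1 a1 b1 using h1
  choose F2 a2 b2 using stepB hA
  choose F3 a3 b3 using fun s : ℕ => stepC (fun n => !sv s.unpair.1 A n) s.unpair.2
  let σ : ℕ → Cond := fun n => Nat.rec ⟨fun _ _ => True, fun _ _ _ _ h => h,
    ComputablePred.computable_iff.2 ⟨fun _ => true, Computable.const _, by simp⟩,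
    by simpa using free_pos⟩ (fun s τ => F3 s (F2 s (F1 s τ))) n
  obtain ⟨B, hB⟩ := compact' (fun n => (σ n).K) (fun n => by
    simp only [Cond.K, Set.ofPred_forall]
    exact isClosed_iInter fun s => ((σ n).loc s).closed)
    (fun n => (a3 _ _).trans ((a2 _ _).trans (a1 _ _))) fun n =>
      (nonempty_of_measure_ne_zero (σ n).pos.ne').mono fun _ h => h.1
  refine ⟨B, fun f hf hv => ?_, fun h => ?_, fun e R => ?_⟩
  · obtain ⟨c, hc⟩ := exists_code.1 (Partrec.nat_iff.1 (Computable.encode.comp hf).partrec)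
    obtain ⟨n, hn⟩ := b1 (encode c) (σ (encode c)) f hf hv fun n => by simp [hc]
    exact ⟨n, fun k σ' h1 h2 => hn B (a2 _ _ (a3 _ _ (hB (encode c + 1))))
      ⟨k, σ', h1, (ofFn_iff _ _).1 h2⟩⟩
  · obtain ⟨e, he⟩ := sv_spec h
    exact b2 e _ B (a3 _ _ (hB (e + 1))) he
  · obtain ⟨p, t, h1, h2, h3, h4⟩ := b3 (Nat.pair e R) _ B (hB (Nat.pair e R + 1))
    simp only [Nat.unpair_pair] at h2 h3
    exact ⟨p, t, h1, h2.ge, fun n hn => by rw [h3, tb_cd _ _ _ hn], h4⟩

open Computable in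
theorem red_find (B : Om) {p : ℕ → ℕ → ℕ → Prop}
    (hp : ComputablePred fun z : ℕ × ℕ => p z.1.unpair.1 z.1.unpair.2 z.2)
    (h : ∀ n, ∃ t, p n t (cd B t)) {g : ℕ → ℕ → ℕ} (hg : Computable₂ g) :
    TuringReducible (fun n => Part.some (g (Nat.pair n (Nat.find (h n))) (cd B (n + 1))))
      (orc B) := by
  have h1 := RecursiveIn.iff_nat.1 (red B (ψ := fun n m => Part.some (if p n.unpair.1 n.unpair.2 m
    then 0 else 1)) (cite hp (const 0) (const 1)).partrec (snd.comp unpair) fun _ => rfl)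
  have h2 := RecursiveIn.iff_nat.1 (red B (ψ := fun n m => Part.some (g n m)) hg.partrec
    (succ.comp (fst.comp unpair)) fun _ => rfl)
  have h3 : Nat.RecursiveIn {orc B} fun n => Part.some (Nat.find (h n)) :=
    h1.rfind.of_eq_tot fun n => by
      simp only [Nat.mem_rfind, Nat.unpair_pair, Part.map_eq_map, Part.map_some, Part.mem_some_iff]
      exact ⟨by simp [Nat.find_spec (h n)], fun hm => by simp [Nat.find_min (h n) hm]⟩
  exact RecursiveIn.iff_nat.2 ((h2.comp ((Primrec.nat_iff.1 Primrec.id).recursiveIn.pair h3)).of_eq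
    fun n => by simp [Seq.seq])

theorem far {X Y : Om} {k : ℕ} (hk : 0 < k)
    (h : ∀ R, ∃ p, ∀ n, p ≤ n → n < R * (p + 1) → n % k ≠ 0 → X n ≠ Y n) :
    1 - 2 / (k : ℝ) ≤
      limsup (fun m : ℕ => ((#{n ∈ range m | X n ≠ Y n} : ℝ) / (m : ℝ))) atTop := by
  refine le_limsup_of_frequently_le (frequently_atTop.2 fun a => ?_)
    (isBoundedUnder_of ⟨1, fun m => div_le_one_of_le₀ ?_ (by positivity)⟩)
  swap
  · exact_mod_cast (card_filter_le _ _).trans_eq (card_range m)
  obtain ⟨p, hp⟩ := h (a + k)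
  have h0 : k * (p + 1) ≤ (a + k) * (p + 1) := Nat.mul_le_mul_right _ (by omega)
  refine ⟨(a + k) * (p + 1), by nlinarith, ?_⟩
  generalize (a + k) * (p + 1) = N at hp h0
  have h1 : #{n ∈ range N | ¬ X n ≠ Y n} ≤ p + (N / k + 1) := by
    refine (card_le_card (t := range p ∪ (range (N / k + 1)).image (k * ·)) fun n hn => ?_).trans
      ((card_union_le _ _).trans (add_le_add (card_range _).le
        (card_image_le.trans (card_range _).le)))
    simp only [mem_filter, mem_range, mem_union, mem_image] at hn ⊢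
    by_cases h2 : n < p
    · exact Or.inl h2
    · refine Or.inr ⟨n / k, Nat.lt_succ_of_le (Nat.div_le_div_right hn.1.le), ?_⟩
      have := Nat.div_add_mod n k
      have h3 : n % k = 0 := by
        by_contra h3
        exact hn.2 (hp n (by omega) hn.1 h3)
      omega
  have h2 := card_filter_add_card_filter_not (s := range N) fun n => X n ≠ Y n
  rw [card_range] at h2
  have h3 := Nat.mul_div_le N k
  have h4 : 0 < N := lt_of_lt_of_le (by positivity) h0
  have h5 : k * N ≤ k * #{n ∈ range N | X n ≠ Y n} + 2 * N := by nlinarith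
  have h6 : (k : ℝ) * N ≤ k * #{n ∈ range N | X n ≠ Y n} + 2 * N := by exact_mod_cast h5
  rw [le_div_iff₀ (by positivity), sub_mul, div_mul_eq_mul_div, sub_le_iff_le_add, ← sub_le_iff_le_add',
    le_div_iff₀ (by positivity)]
  linarith

theorem PP_prim : Primrec PP := Primrec.fst.comp (Primrec.unpair.comp (Primrec.fst.comp
  (Primrec.unpair.comp (Primrec.nat_div.comp Primrec.id (Primrec.const 2)))))

theorem ZZ_prim : Primrec ZZ := Primrec.snd.comp (Primrec.unpair.comp (Primrec.fst.comp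
  (Primrec.unpair.comp (Primrec.nat_div.comp Primrec.id (Primrec.const 2)))))

def out (k q m : ℕ) : ℕ := (if q.unpair.1 % k = 0 then tb m (q.unpair.1 / k)
  else tb (ZZ (II q.unpair.2)) q.unpair.1).toNat

theorem u1 : Primrec fun z : ℕ × ℕ => z.1.unpair.1 :=
  Primrec.fst.comp (Primrec.unpair.comp Primrec.fst)

theorem u2 : Primrec fun z : ℕ × ℕ => z.1.unpair.2 :=
  Primrec.snd.comp (Primrec.unpair.comp Primrec.fst)

theorem out_prim (k : ℕ) : Primrec₂ (out k) :=
  toNat_prim.comp (Primrec.ite (Primrec.eq.comp (Primrec.nat_mod.comp u1 (.const k)) (.const 0))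
    (tb_prim.comp Primrec.snd (Primrec.nat_div.comp u1 (.const k)))
    (tb_prim.comp (ZZ_prim.comp (II_prim.comp u2)) u1))

theorem p_comp : ComputablePred fun z : ℕ × ℕ =>
    act z.1.unpair.2 (tb z.2) ∧ z.1.unpair.1 < PP (II z.1.unpair.2) := by
  have h : ComputablePred fun z : ℕ × ℕ => act z.1.unpair.2 (tb z.2) :=
    ccomp (f := fun z : ℕ × ℕ => (z.1.unpair.2, z.2)) act_comp (u2.to_comp.pair Computable.snd)
  exact cand h (clt u1.to_comp (PP_prim.comp (II_prim.comp u2)).to_comp)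

theorem main {A : Om} (hA : Rand A) : ∃ B, Rand B ∧ ¬ TuringReducible (orc A) (orc B) ∧
    ∀ ε : ℝ, 0 < ε → ∃ Y : Om, TuringReducible (orc Y) (orc B) ∧ TuringReducible (orc B) (orc Y) ∧
      ∀ X : Om, TuringReducible (orc X) (orc A) → 1 - ε ≤
        limsup (fun m : ℕ => ((#{n ∈ range m | X n ≠ Y n} : ℝ) / (m : ℝ))) atTop := by
  obtain ⟨B, h1, h2, h3⟩ := generic hA
  refine ⟨B, h1, h2, fun ε hε => ?_⟩
  obtain ⟨k, hk⟩ := exists_nat_gt (2 / ε)
  have hk0 : 0 < k := by exact_mod_cast (by positivity : 0 < 2 / ε).trans hk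
  have h4 : ∀ n, ∃ t, act t (tb (cd B t)) ∧ n < PP (II t) := fun n => by
    obtain ⟨p, t, h4, h5, -⟩ := h3 0 (n + 1)
    exact ⟨t, ((act_loc t).iff B).2 h4, by nlinarith⟩
  have h5 := red_find B (p := fun n t m => act t (tb m) ∧ n < PP (II t)) p_comp h4
    (out_prim k).to_comp
  refine ⟨fun n => if n % k = 0 then B (n / k) else tb (ZZ (II (Nat.find (h4 n)))) n,
    h5.of_eq fun n => ?_, (comp_red _ (h := fun n => k * n)
      (Primrec.nat_mul.comp (.const k) .id).to_comp).of_eq fun n => ?_, fun X hX => ?_⟩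
  · simp only [out, Nat.unpair_pair, orc, tb_cd B _ _ (Nat.lt_succ_of_le (Nat.div_le_self n k))]
    congr!
  · simp [orc, hk0]
  · obtain ⟨e, -, rfl⟩ := sv_spec hX
    refine le_trans ?_ (far hk0 fun R => ?_)
    · rw [div_lt_iff₀ hε, mul_comm, ← div_lt_iff₀ (by positivity)] at hk
      linarith
    · obtain ⟨p, t, k1, k2, k3, k4⟩ := h3 e R
      refine ⟨p, fun n k5 k6 k7 => ?_⟩
      have : Nat.find (h4 n) = t := (Nat.find_eq_iff _).2 ⟨⟨((act_loc t).iff B).2 k1, by omega⟩,
        fun s hs h => by have := k4 s hs (((act_loc s).iff B).1 h.1); omega⟩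
      simp [k7, this, k3 n k6]

end Pool.Agent.H.MP_ad67df_lc
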